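import Mathlib

/-!
# Binary matroids and their homomorphisms
-/

set_option autoImplicit false

namespace Pool.Agent.Q164.BR

open Finset

/-- A (finite) simple binary matroid, given by the columns `col e` (`e ∈ E`) of a matrix over
`ZMod 2` with rows indexed by `ι`; the columns are pairwise distinct (a zero column is allowed). -/
structure BinMat where
  /-- the ground set -/
  E : Type
  /-- the ground set is finite -/
  finE : Finite E
  /-- the index set of the rows -/
  ι : Type
  /-- there are finitely many rows -/
  finι : Finite ι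
  /-- the columns -/
  col : E → ι → ZMod 2
  /-- the columns are pairwise distinct -/
  col_injective : Function.Injective col

attribute [instance] BinMat.finE BinMat.finι

namespace BinMat

/-- The circuits of a binary matroid: the minimal nonempty sets of columns with sum zero. -/
def IsCircuit (M : BinMat) (Z : Finset M.E) : Prop :=
  Z.Nonempty ∧ ∑ e ∈ Z, M.col e = 0 ∧ ∀ Z' : Finset M.E, Z' ⊂ Z → Z'.Nonempty →
    ∑ e ∈ Z', M.col e ≠ 0

/-- The support of the linear functional `φ` on the columns. -/
def supp (M : BinMat) (φ : (M.ι → ZMod 2) →ₗ[ZMod 2] ZMod 2) : Set M.E := {e | φ (M.col e) = 1}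

/-- The cocircuits of a binary matroid: the minimal nonempty supports of vectors of the row
space. -/
def IsCocircuit (M : BinMat) (C : Set M.E) : Prop :=
  C.Nonempty ∧ (∃ φ, M.supp φ = C) ∧ ∀ φ, (M.supp φ).Nonempty → M.supp φ ⊆ C → M.supp φ = C

/-- Homomorphisms: the image of each circuit sums to zero. -/
def IsHom (M N : BinMat) (τ : M.E → N.E) : Prop :=
  ∀ Z : Finset M.E, M.IsCircuit Z → ∑ e ∈ Z, N.col (τ e) = 0

/-- `τ'` arises from `τ` by adding `c` on the cocircuit `C`. -/
def Step (M N : BinMat) (τ τ' : M.E → N.E) : Prop :=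
  ∃ C, M.IsCocircuit C ∧ ∃ c : N.ι → ZMod 2,
    (∀ e ∈ C, N.col (τ' e) = N.col (τ e) + c) ∧ ∀ e, e ∉ C → τ' e = τ e

lemma add_self' {ι : Type} (c : ι → ZMod 2) : c + c = 0 := by
  funext i
  exact CharTwo.add_self_eq_zero _

lemma Step.symm {M N : BinMat} {τ τ' : M.E → N.E} (h : Step M N τ τ') : Step M N τ' τ := by
  obtain ⟨C, hC, c, h1, h2⟩ := h
  refine ⟨C, hC, c, fun e he => ?_, fun e he => (h2 e he).symm⟩
  rw [h1 e he, add_assoc, add_self', add_zero]

/-- The colouring graph `Col(M, N)`. -/
def Col (M N : BinMat) : SimpleGraph {τ : M.E → N.E // IsHom M N τ} where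
  Adj τ τ' := τ ≠ τ' ∧ Step M N τ.1 τ'.1
  symm := ⟨fun _ _ h => ⟨h.1.symm, h.2.symm⟩⟩
  loopless := ⟨fun _ h => h.1 rfl⟩

/-- `Recol(N)` is trivial: every two homomorphisms to `N` are joined by a path. -/
def RecolTrivial (N : BinMat) : Prop := ∀ M : BinMat, (Col M N).Preconnected

/-- A dismantling retraction of `N`: an idempotent endomorphism adjacent to the identity. -/
def IsDismantlingRetraction (N : BinMat) (r : N.E → N.E) : Prop :=
  IsHom N N r ∧ (∀ e, r (r e) = r e) ∧ r ≠ id ∧ Step N N id r

/-- The restriction of `N` to a set of elements. -/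
def restrict (N : BinMat) (X : Set N.E) : BinMat where
  E := X
  finE := inferInstance
  ι := N.ι
  finι := N.finι
  col e := N.col e.1
  col_injective _ _ h := Subtype.ext (N.col_injective h)

/-- Isomorphism of matroids. -/
def Iso (N N' : BinMat) : Prop :=
  ∃ f : N.E ≃ N'.E, ∀ Z : Finset N.E, N.IsCircuit Z ↔ N'.IsCircuit (Z.map f.toEmbedding)

/-- `N` dismantles to `N'`: a sequence of dismantling retractions, each applied to the image of
the previous one, ends in a copy of `N'`. -/
inductive Dismantles : BinMat → BinMat → Prop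
  | copy {N N' : BinMat} : Iso N N' → Dismantles N N'
  | step {N N' : BinMat} (r : N.E → N.E) : IsDismantlingRetraction N r →
      Dismantles (N.restrict (Set.range r)) N' → Dismantles N N'

/-- The loop `M^ℓ(K₁)`: one element with a zero column. -/
def loop : BinMat where
  E := Unit
  finE := inferInstance
  ι := Unit
  finι := inferInstance
  col _ _ := 0
  col_injective _ _ _ := rfl

/-- The edge `M(K₂)`: one element with a nonzero column. -/
def edge : BinMat where
  E := Unit
  finE := inferInstance
  ι := Unit
  finι := inferInstance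
  col _ _ := 1
  col_injective _ _ _ := rfl

end BinMat

end Pool.Agent.Q164.BR
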