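import Mathlib
import Pool.Agent.Q164.BR.Defs

/-!
# Homomorphisms of binary matroids are linear
-/

set_option autoImplicit false

namespace Pool.Agent.Q164.BR

open Finset BinMat

variable {M N : BinMat}

lemma two_cases (x : ZMod 2) : x = 0 ∨ x = 1 := by
  revert x
  decide

lemma sum_zero_of_hom {τ : M.E → N.E} (h : IsHom M N τ) :
    ∀ (k : ℕ) (Z : Finset M.E), Z.card = k → ∑ e ∈ Z, M.col e = 0 → ∑ e ∈ Z, N.col (τ e) = 0 := by
  classical
  intro k
  induction k using Nat.strong_induction_on with
  | _ k ih =>
    intro Z hk hZ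
    rcases Z.eq_empty_or_nonempty with rfl | hne
    · simp
    · by_cases hc : M.IsCircuit Z
      · exact h Z hc
      · have : ∃ Z' : Finset M.E, Z' ⊂ Z ∧ Z'.Nonempty ∧ ∑ e ∈ Z', M.col e = 0 := by
          by_contra hno
          push Not at hno
          exact hc ⟨hne, hZ, fun Z' h1 h2 => hno Z' h1 h2⟩
        obtain ⟨Z', h1, h2, h3⟩ := this
        have h4 : ∑ e ∈ Z \ Z', M.col e = 0 := by
          have := Finset.sum_sdiff (f := M.col) h1.1
          rw [h3, add_zero, hZ] at this
          exact this
        have e1 := ih Z'.card (by rw [← hk]; exact Finset.card_lt_card h1) Z' rfl h3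
        have e2 := ih (Z \ Z').card (by
          rw [← hk]
          apply Finset.card_lt_card
          refine ⟨Finset.sdiff_subset, ?_⟩
          intro hs
          obtain ⟨x, hx⟩ := h2
          have := hs (h1.1 hx)
          rw [Finset.mem_sdiff] at this
          exact this.2 hx) (Z \ Z') rfl h4
        have := Finset.sum_sdiff (f := fun e => N.col (τ e)) h1.1
        rw [← this, e1, e2, add_zero]

lemma hom_linear {τ : M.E → N.E} (h : IsHom M N τ) :
    ∃ L : (M.ι → ZMod 2) →ₗ[ZMod 2] (N.ι → ZMod 2), ∀ e, L (M.col e) = N.col (τ e) := by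
  classical
  set p : (M.E →₀ ZMod 2) →ₗ[ZMod 2] (M.ι → ZMod 2) := Finsupp.linearCombination (ZMod 2) M.col
    with hp
  set q : (M.E →₀ ZMod 2) →ₗ[ZMod 2] (N.ι → ZMod 2) :=
    Finsupp.linearCombination (ZMod 2) (fun e => N.col (τ e)) with hq
  have hker : LinearMap.ker p ≤ LinearMap.ker q := by
    intro f hf
    rw [LinearMap.mem_ker] at hf ⊢
    rw [hp, Finsupp.linearCombination_apply, Finsupp.sum] at hf
    rw [hq, Finsupp.linearCombination_apply, Finsupp.sum]
    have e1 : ∀ e ∈ f.support, f e = 1 := by
      intro e he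
      rw [Finsupp.mem_support_iff] at he
      rcases two_cases (f e) with h0 | h0
      · exact absurd h0 he
      · exact h0
    rw [Finset.sum_congr rfl (fun e he => by rw [e1 e he, one_smul])] at hf ⊢
    exact sum_zero_of_hom h _ _ rfl hf
  obtain ⟨L, hL⟩ := LinearMap.exists_extend
    (((LinearMap.ker p).liftQ q hker).comp (LinearMap.quotKerEquivRange p).symm.toLinearMap)
  refine ⟨L, fun e => ?_⟩
  have e1 : p (Finsupp.single e 1) = M.col e := by
    rw [hp, Finsupp.linearCombination_single, one_smul]
  have e2 : q (Finsupp.single e 1) = N.col (τ e) := by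
    rw [hq, Finsupp.linearCombination_single, one_smul]
  have e3 := LinearMap.congr_fun hL ⟨p (Finsupp.single e 1), LinearMap.mem_range_self _ _⟩
  rw [LinearMap.comp_apply] at e3
  rw [← e1, ← e2]
  have e4 : ((LinearMap.quotKerEquivRange p).symm
      ⟨p (Finsupp.single e 1), LinearMap.mem_range_self _ _⟩) =
      (LinearMap.ker p).mkQ (Finsupp.single e 1) := by
    rw [LinearEquiv.symm_apply_eq]
    rfl
  simp only [LinearMap.comp_apply, LinearEquiv.coe_coe] at e3
  rw [e4] at e3
  simpa using e3

lemma hom_of_linear {τ : M.E → N.E} (L : (M.ι → ZMod 2) →ₗ[ZMod 2] (N.ι → ZMod 2))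
    (hL : ∀ e, L (M.col e) = N.col (τ e)) : IsHom M N τ := by
  intro Z hZ
  rw [← Finset.sum_congr rfl (fun e _ => hL e), ← map_sum, hZ.2.1, map_zero]

/-- Below the support of a functional with `φ c = 1` there is a cocircuit of the same kind. -/
lemma exists_cocircuit {N : BinMat} {c : N.ι → ZMod 2}
    (hc : c ∈ Submodule.span (ZMod 2) (Set.range N.col))
    {φ : (N.ι → ZMod 2) →ₗ[ZMod 2] ZMod 2} (hφ : φ c = 1) :
    ∃ φ' : (N.ι → ZMod 2) →ₗ[ZMod 2] ZMod 2, φ' c = 1 ∧ N.supp φ' ⊆ N.supp φ ∧
      N.IsCocircuit (N.supp φ') := by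
  classical
  have key : ∀ (k : ℕ) (φ : (N.ι → ZMod 2) →ₗ[ZMod 2] ZMod 2), φ c = 1 → (N.supp φ).ncard = k →
      ∃ φ' : (N.ι → ZMod 2) →ₗ[ZMod 2] ZMod 2, φ' c = 1 ∧ N.supp φ' ⊆ N.supp φ ∧
      N.IsCocircuit (N.supp φ') := by
    intro k
    induction k using Nat.strong_induction_on with
    | _ k ih =>
      intro φ hφ hk
      by_cases hco : N.IsCocircuit (N.supp φ)
      · exact ⟨φ, hφ, subset_rfl, hco⟩
      · have hne : (N.supp φ).Nonempty := by
          by_contra hemp
          rw [Set.not_nonempty_iff_eq_empty] at hemp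
          have hz : ∀ x ∈ Submodule.span (ZMod 2) (Set.range N.col), φ x = 0 := by
            intro x hx
            induction hx using Submodule.span_induction with
            | mem x hx =>
              obtain ⟨e, rfl⟩ := hx
              rcases two_cases (φ (N.col e)) with h0 | h0
              · exact h0
              · have : e ∈ N.supp φ := h0
                rw [hemp] at this
                exact absurd this (Set.notMem_empty e)
            | zero => exact map_zero φ
            | add x y _ _ h1 h2 => rw [map_add, h1, h2, add_zero]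
            | smul a x _ h1 => rw [map_smul, h1, smul_zero]
          rw [hz c hc] at hφ
          exact zero_ne_one hφ
        have : ∃ ψ, (N.supp ψ).Nonempty ∧ N.supp ψ ⊆ N.supp φ ∧ N.supp ψ ≠ N.supp φ := by
          by_contra hno
          push Not at hno
          exact hco ⟨hne, ⟨φ, rfl⟩, fun ψ h1 h2 => hno ψ h1 h2⟩
        obtain ⟨ψ, h1, h2, h3⟩ := this
        rcases two_cases (ψ c) with h4 | h4
        · -- take the sum
          have h5 : N.supp (φ + ψ) ⊆ N.supp φ := by
            intro e he
            rcases two_cases (φ (N.col e)) with h6 | h6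
            · rcases two_cases (ψ (N.col e)) with h7 | h7
              · have : (φ + ψ) (N.col e) = 1 := he
                rw [LinearMap.add_apply, h6, h7] at this
                exact absurd this (by decide)
              · exact h2 h7
            · exact h6
          have h6 : N.supp (φ + ψ) ≠ N.supp φ := by
            intro heq
            obtain ⟨e, he⟩ := h1
            have h7 : e ∈ N.supp (φ + ψ) := by rw [heq]; exact h2 he
            have h8 : φ (N.col e) = 1 := h2 he
            have h9 : ψ (N.col e) = 1 := he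
            have h10 : (φ + ψ) (N.col e) = 1 := h7
            rw [LinearMap.add_apply, h8, h9] at h10
            exact absurd h10 (by decide)
          obtain ⟨φ', e1, e2, e3⟩ := ih (N.supp (φ + ψ)).ncard (by
            rw [← hk]
            exact Set.ncard_lt_ncard (lt_of_le_of_ne h5 h6) (Set.toFinite _)) (φ + ψ) (by
            rw [LinearMap.add_apply, hφ, h4, add_zero]) rfl
          exact ⟨φ', e1, e2.trans h5, e3⟩
        · obtain ⟨φ', e1, e2, e3⟩ := ih (N.supp ψ).ncard (by
            rw [← hk]
            exact Set.ncard_lt_ncard (lt_of_le_of_ne h2 h3) (Set.toFinite _)) ψ h4 rfl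
          exact ⟨φ', e1, e2.trans h2, e3⟩
  exact key _ φ hφ rfl

lemma col_add_mem_span {N : BinMat} (s t : N.E) :
    N.col s + N.col t ∈ Submodule.span (ZMod 2) (Set.range N.col) :=
  Submodule.add_mem _ (Submodule.subset_span ⟨s, rfl⟩) (Submodule.subset_span ⟨t, rfl⟩)

/-- A functional with `φ c = 1` whose support is moved into `N` by `c` gives a dismantling
retraction. -/
lemma exists_retraction {N : BinMat} {c : N.ι → ZMod 2}
    (hc : c ∈ Submodule.span (ZMod 2) (Set.range N.col))
    {φ : (N.ι → ZMod 2) →ₗ[ZMod 2] ZMod 2} (hφ : φ c = 1)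
    (hmov : ∀ e, φ (N.col e) = 1 → ∃ e', N.col e' = N.col e + c) :
    ∃ r, N.IsDismantlingRetraction r := by
  classical
  obtain ⟨ψ, h1, h2, h3⟩ := exists_cocircuit hc hφ
  have hmov' : ∀ e, ∃ e', N.col e' = N.col e + ψ (N.col e) • c := by
    intro e
    rcases two_cases (ψ (N.col e)) with h4 | h4
    · exact ⟨e, by rw [h4, zero_smul, add_zero]⟩
    · obtain ⟨e', he'⟩ := hmov e (h2 h4)
      exact ⟨e', by rw [h4, one_smul, he']⟩
  choose r hr using hmov'
  set R : (N.ι → ZMod 2) →ₗ[ZMod 2] (N.ι → ZMod 2) := LinearMap.id + ψ.smulRight c with hR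
  have hRr : ∀ e, R (N.col e) = N.col (r e) := by
    intro e
    rw [hr e]
    simp [hR]
  refine ⟨r, hom_of_linear R hRr, ?_, ?_, ?_⟩
  · intro e
    apply N.col_injective
    rw [hr (r e), hr e, map_add, map_smul, h1]
    rcases two_cases (ψ (N.col e)) with h4 | h4
    · rw [h4]; simp
    · rw [h4]
      have : (1 : ZMod 2) + (1 : ZMod 2) • (1 : ZMod 2) = 0 := by decide
      rw [this, zero_smul, add_zero]
  · intro hid
    obtain ⟨e, he⟩ := h3.1
    have h4 := hr e
    rw [hid] at h4
    have h5 : ψ (N.col e) = 1 := he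
    rw [h5, one_smul, id] at h4
    have h6 : c = 0 := by
      have := congrArg (fun x => N.col e + x) h4
      simp only [← add_assoc] at this
      rw [add_self', zero_add] at this
      exact this.symm
    rw [h6, map_zero] at h1
    exact zero_ne_one h1
  · refine ⟨N.supp ψ, h3, c, fun e he => ?_, fun e he => ?_⟩
    · have h5 : ψ (N.col e) = 1 := he
      rw [hr e, h5, one_smul, id]
    · apply N.col_injective
      rcases two_cases (ψ (N.col e)) with h4 | h4
      · rw [hr e, h4, zero_smul, add_zero, id]
      · exact absurd h4 he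

lemma exists_retraction' {N : BinMat} {c : N.ι → ZMod 2}
    (hc : c ∈ Submodule.span (ZMod 2) (Set.range N.col)) (hc0 : c ≠ 0)
    (hmov : ∀ e, ∃ e', N.col e' = N.col e + c) : ∃ r, N.IsDismantlingRetraction r := by
  have : ∃ i, c i ≠ 0 := by
    by_contra hno
    push Not at hno
    exact hc0 (funext hno)
  obtain ⟨i, hi⟩ := this
  have hi1 : c i = 1 := by
    rcases two_cases (c i) with h | h
    · exact absurd h hi
    · exact h
  exact exists_retraction hc (φ := LinearMap.proj i) hi1 fun e _ => hmov e

end Pool.Agent.Q164.BR
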