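import Mathlib
import Pool.Agent.Q164.BR.Lin

/-!
# The product of a stiff binary matroid with itself
-/

set_option autoImplicit false

namespace Pool.Agent.Q164.BR

open Finset BinMat

/-- The product: pairs of elements, with concatenated columns. -/
def prod (M N : BinMat) : BinMat where
  E := M.E × N.E
  finE := inferInstance
  ι := M.ι ⊕ N.ι
  finι := inferInstance
  col e := Sum.elim (M.col e.1) (N.col e.2)
  col_injective := by
    intro e f h
    ext1
    · apply M.col_injective
      funext i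
      exact congrFun h (Sum.inl i)
    · apply N.col_injective
      funext i
      exact congrFun h (Sum.inr i)

/-- the first projection -/
def linFst (M N : BinMat) : ((prod M N).ι → ZMod 2) →ₗ[ZMod 2] (M.ι → ZMod 2) :=
  LinearMap.funLeft (ZMod 2) (ZMod 2) Sum.inl

/-- the second projection -/
def linSnd (M N : BinMat) : ((prod M N).ι → ZMod 2) →ₗ[ZMod 2] (N.ι → ZMod 2) :=
  LinearMap.funLeft (ZMod 2) (ZMod 2) Sum.inr

lemma isHom_fst (M N : BinMat) : IsHom (prod M N) M Prod.fst :=
  hom_of_linear (linFst M N) fun _ => rfl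

lemma isHom_snd (M N : BinMat) : IsHom (prod M N) N Prod.snd :=
  hom_of_linear (linSnd M N) fun _ => rfl

/-- the embedding of the first coordinate -/
def inFst (M N : BinMat) : (M.ι → ZMod 2) →ₗ[ZMod 2] ((prod M N).ι → ZMod 2) where
  toFun x := Sum.elim x 0
  map_add' x y := by
    funext i
    rcases i with i | i
    · rfl
    · show (0 : ZMod 2) = 0 + 0
      rw [add_zero]
  map_smul' a x := by
    funext i
    rcases i with i | i
    · rfl
    · show (0 : ZMod 2) = a • 0
      rw [smul_zero]

/-- the embedding of the second coordinate -/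
def inSnd (M N : BinMat) : (N.ι → ZMod 2) →ₗ[ZMod 2] ((prod M N).ι → ZMod 2) where
  toFun x := Sum.elim 0 x
  map_add' x y := by
    funext i
    rcases i with i | i
    · show (0 : ZMod 2) = 0 + 0
      rw [add_zero]
    · rfl
  map_smul' a x := by
    funext i
    rcases i with i | i
    · show (0 : ZMod 2) = a • 0
      rw [smul_zero]
    · rfl

lemma col_prod (M N : BinMat) (e : (prod M N).E) :
    (prod M N).col e = inFst M N (M.col e.1) + inSnd M N (N.col e.2) := by
  funext i
  rcases i with i | i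
  · show M.col e.1 i = M.col e.1 i + 0
    rw [add_zero]
  · show N.col e.2 i = 0 + N.col e.2 i
    rw [zero_add]

/-- The homomorphisms in the component of the first projection. -/
def Good (N : BinMat) (τ : (prod N N).E → N.E) : Prop :=
  ∃ g : Equiv.Perm N.E,
    (∃ G : (N.ι → ZMod 2) →ₗ[ZMod 2] (N.ι → ZMod 2), ∀ s, G (N.col s) = N.col (g s)) ∧
    (∃ G : (N.ι → ZMod 2) →ₗ[ZMod 2] (N.ι → ZMod 2), ∀ s, G (N.col (g s)) = N.col s) ∧
    ∀ e : N.E × N.E, τ e = g e.1

lemma good_fst (N : BinMat) : Good N Prod.fst :=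
  ⟨1, ⟨LinearMap.id, fun _ => rfl⟩, ⟨LinearMap.id, fun _ => rfl⟩, fun _ => rfl⟩

lemma good_step {N : BinMat} (hstiff : ¬ ∃ r, N.IsDismantlingRetraction r)
    {τ τ' : (prod N N).E → N.E} (hne : τ ≠ τ') (hg : Good N τ) (hs : Step (prod N N) N τ τ') :
    Good N τ' := by
  classical
  obtain ⟨g, ⟨G, hG⟩, ⟨G', hG'⟩, hτ⟩ := hg
  obtain ⟨C, hC, c, h1, h2⟩ := hs
  obtain ⟨Φ, rfl⟩ := hC.2.1
  obtain ⟨e0, he0⟩ := hC.1
  set φ0 : (N.ι → ZMod 2) →ₗ[ZMod 2] ZMod 2 := Φ.comp (inFst N N) with hφ0
  set φ1 : (N.ι → ZMod 2) →ₗ[ZMod 2] ZMod 2 := Φ.comp (inSnd N N) with hφ1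
  have hΦ : ∀ s t : N.E, Φ ((prod N N).col (s, t)) = φ0 (N.col s) + φ1 (N.col t) := by
    intro s t
    rw [col_prod, map_add]
    rfl
  have hcol : ∀ s t : N.E, N.col (τ' (s, t)) =
      N.col (g s) + (φ0 (N.col s) + φ1 (N.col t)) • c := by
    intro s t
    rw [← hΦ s t]
    rcases two_cases (Φ ((prod N N).col (s, t))) with h | h
    · rw [h, zero_smul, add_zero, h2 (s, t), hτ (s, t)]
      intro hmem
      have : Φ ((prod N N).col (s, t)) = 1 := hmem
      rw [h] at this
      exact zero_ne_one this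
    · rw [h, one_smul, h1 (s, t) h, hτ (s, t)]
  -- `c` is in the span and nonzero
  have hcspan : c ∈ Submodule.span (ZMod 2) (Set.range N.col) := by
    have h3 := h1 e0 he0
    have h4 : c = N.col (τ e0) + N.col (τ' e0) := by
      rw [h3, ← add_assoc, add_self', zero_add]
    rw [h4]
    exact col_add_mem_span _ _
  have hc0 : c ≠ 0 := by
    rintro rfl
    apply hne
    funext e
    by_cases he : e ∈ (prod N N).supp Φ
    · apply N.col_injective
      rw [h1 e he, add_zero]
    · exact (h2 e he).symm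
  -- the second functional is constant on the elements
  by_cases hconst : ∃ ε, ∀ t : N.E, φ1 (N.col t) = ε
  swap
  · exfalso
    apply hstiff
    push Not at hconst
    obtain ⟨t0, ht0⟩ := hconst 0
    obtain ⟨t1, ht1⟩ := hconst 1
    have ht0' : φ1 (N.col t0) = 1 := by
      rcases two_cases (φ1 (N.col t0)) with h | h
      · exact absurd h ht0
      · exact h
    have ht1' : φ1 (N.col t1) = 0 := by
      rcases two_cases (φ1 (N.col t1)) with h | h
      · exact h
      · exact absurd h ht1
    apply exists_retraction' hcspan hc0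
    intro u
    set s := g.symm u with hs
    have hgs : g s = u := g.apply_symm_apply u
    rcases two_cases (φ0 (N.col s)) with h | h
    · refine ⟨τ' (s, t0), ?_⟩
      rw [hcol, h, ht0', zero_add, one_smul, hgs]
    · refine ⟨τ' (s, t1), ?_⟩
      rw [hcol, h, ht1', add_zero, one_smul, hgs]
  obtain ⟨ε, hε⟩ := hconst
  obtain ⟨F, hF⟩ : ∃ F : (N.ι → ZMod 2) →ₗ[ZMod 2] ZMod 2, ∀ s, F (N.col s) =
      φ0 (N.col s) + ε := by
    rcases two_cases ε with h | h
    · exact ⟨φ0, fun s => by rw [h, add_zero]⟩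
    · exact ⟨φ0 + φ1, fun s => by rw [LinearMap.add_apply, hε s]⟩
  have hcol' : ∀ s t : N.E, N.col (τ' (s, t)) = N.col (g s) + F (N.col s) • c := by
    intro s t
    rw [hcol, hε, hF]
  -- the transvection
  set ψ : (N.ι → ZMod 2) →ₗ[ZMod 2] ZMod 2 := F.comp G' with hψ
  have hψg : ∀ s, ψ (N.col (g s)) = F (N.col s) := by
    intro s
    rw [hψ, LinearMap.comp_apply, hG']
  have hmov : ∀ u, ∃ u', N.col u' = N.col u + ψ (N.col u) • c := by
    intro u
    refine ⟨τ' (g.symm u, u), ?_⟩
    rw [hcol']
    have := hψg (g.symm u)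
    rw [g.apply_symm_apply] at this
    rw [this, g.apply_symm_apply]
  have hψc : ψ c = 0 := by
    rcases two_cases (ψ c) with h | h
    · exact h
    · exfalso
      apply hstiff
      apply exists_retraction hcspan h
      intro u hu
      obtain ⟨u', hu'⟩ := hmov u
      exact ⟨u', by rw [hu', hu, one_smul]⟩
  choose p hp using hmov
  set T : (N.ι → ZMod 2) →ₗ[ZMod 2] (N.ι → ZMod 2) := LinearMap.id + ψ.smulRight c with hT
  have hTp : ∀ u, T (N.col u) = N.col (p u) := by
    intro u
    rw [hp u]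
    simp [hT]
  have hTT : ∀ x, T (T x) = x := by
    intro x
    simp only [hT, LinearMap.add_apply, LinearMap.id_apply, LinearMap.smulRight_apply, map_add,
      map_smul, hψc]
    rw [zero_smul, add_zero, add_assoc x, add_self', add_zero]
  have hpp : ∀ u, p (p u) = u := by
    intro u
    apply N.col_injective
    rw [← hTp, ← hTp, hTT]
  let P : Equiv.Perm N.E := ⟨p, p, hpp, hpp⟩
  refine ⟨g.trans P, ⟨T.comp G, fun s => ?_⟩, ⟨G'.comp T, fun s => ?_⟩, fun e => ?_⟩
  · rw [LinearMap.comp_apply, hG, hTp]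
    rfl
  · rw [LinearMap.comp_apply]
    have : N.col ((g.trans P) s) = T (N.col (g s)) := by
      rw [hTp]; rfl
    rw [this, hTT, hG']
  · apply N.col_injective
    obtain ⟨s, t⟩ := e
    rw [hcol' s t]
    have : N.col ((g.trans P) s) = T (N.col (g s)) := by
      rw [hTp]; rfl
    show _ = N.col ((g.trans P) s)
    rw [this]
    simp only [hT, LinearMap.add_apply, LinearMap.id_apply, LinearMap.smulRight_apply]
    rw [hψg]

/-- If `N` is stiff with at least two elements then `Col(N × N, N)` is disconnected. -/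
lemma not_preconnected {N : BinMat} (hstiff : ¬ ∃ r, N.IsDismantlingRetraction r)
    {a b : N.E} (hab : a ≠ b) : ¬ (Col (prod N N) N).Preconnected := by
  intro h
  have h1 := h ⟨Prod.fst, isHom_fst N N⟩ ⟨Prod.snd, isHom_snd N N⟩
  obtain ⟨w⟩ := h1
  have key : ∀ (x y : {τ : (prod N N).E → N.E // IsHom (prod N N) N τ}),
      (Col (prod N N) N).Walk x y → Good N x.1 → Good N y.1 := by
    intro x y w
    induction w with
    | nil => exact id
    | cons h w ih =>
      intro hx
      apply ih
      exact good_step hstiff (fun e => h.1 (Subtype.ext e)) hx h.2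
  obtain ⟨g, _, _, hg⟩ := key _ _ w (good_fst N)
  have e1 := hg (a, a)
  have e2 := hg (a, b)
  dsimp only at e1 e2
  exact hab (e1.trans e2.symm)

/-- Triviality passes to the image of a dismantling retraction. -/
lemma recolTrivial_restrict {N : BinMat} (hN : RecolTrivial N) {r : N.E → N.E}
    (hr : N.IsDismantlingRetraction r) : RecolTrivial (N.restrict (Set.range r)) := by
  classical
  intro M τ τ'
  obtain ⟨hr1, hr2, _, _⟩ := hr
  obtain ⟨R, hR⟩ := hom_linear hr1
  -- the lift to `N` and the projection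
  have hlift : ∀ σ : {τ : M.E → (N.restrict (Set.range r)).E // IsHom M (N.restrict (Set.range r)) τ},
      IsHom M N (fun e => (σ.1 e).1) := fun σ Z hZ => σ.2 Z hZ
  have hproj : ∀ σ : {τ : M.E → N.E // IsHom M N τ},
      IsHom M (N.restrict (Set.range r)) (fun e => ⟨r (σ.1 e), Set.mem_range_self _⟩) := by
    intro σ Z hZ
    show ∑ e ∈ Z, N.col (r (σ.1 e)) = 0
    rw [← Finset.sum_congr rfl (fun e _ => hR (σ.1 e)), ← map_sum, σ.2 Z hZ, map_zero]
  obtain ⟨w⟩ := hN M ⟨_, hlift τ⟩ ⟨_, hlift τ'⟩
  have key : ∀ (x y : {τ : M.E → N.E // IsHom M N τ}), (Col M N).Walk x y →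
      (Col M (N.restrict (Set.range r))).Reachable ⟨_, hproj x⟩ ⟨_, hproj y⟩ := by
    intro x y w
    induction w with
    | nil => exact SimpleGraph.Reachable.refl _
    | @cons x z y h w ih =>
      refine SimpleGraph.Reachable.trans ?_ ih
      by_cases heq : (⟨_, hproj x⟩ : {τ : M.E → (N.restrict (Set.range r)).E //
          IsHom M (N.restrict (Set.range r)) τ}) = ⟨_, hproj z⟩
      · rw [heq]
      · apply SimpleGraph.Adj.reachable
        refine ⟨heq, ?_⟩
        obtain ⟨C, hC, c, h1, h2⟩ := h.2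
        refine ⟨C, hC, R c, fun e he => ?_, fun e he => ?_⟩
        · show N.col (r (z.1 e)) = N.col (r (x.1 e)) + R c
          rw [← hR, ← hR, h1 e he, map_add]
        · apply Subtype.ext
          show r (z.1 e) = r (x.1 e)
          rw [h2 e he]
  have := key _ _ w
  have e1 : ∀ σ : {τ : M.E → (N.restrict (Set.range r)).E // IsHom M (N.restrict (Set.range r)) τ},
      (⟨_, hproj ⟨_, hlift σ⟩⟩ : {τ : M.E → (N.restrict (Set.range r)).E //
        IsHom M (N.restrict (Set.range r)) τ}) = σ := by
    intro σ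
    apply Subtype.ext
    funext e
    apply Subtype.ext
    show r (σ.1 e).1 = (σ.1 e).1
    obtain ⟨y, hy⟩ := (σ.1 e).2
    rw [← hy, hr2]
  rw [e1, e1] at this
  exact this

lemma iso_loop_or_edge {N : BinMat} (a : N.E) (ha : ∀ b, b = a) :
    Iso N BinMat.loop ∨ Iso N BinMat.edge := by
  classical
  let f : N.E ≃ Unit := ⟨fun _ => (), fun _ => a, fun b => (ha b).symm, fun _ => rfl⟩
  have hZ : ∀ Z : Finset N.E, Z.Nonempty → Z = {a} := by
    intro Z hZ
    ext b
    rw [Finset.mem_singleton]
    constructor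
    · intro _
      exact ha b
    · rintro rfl
      obtain ⟨c, hc⟩ := hZ
      rwa [ha c] at hc
  have hU : ∀ Z : Finset Unit, Z.Nonempty → Z = {()} := by
    intro Z hZ
    ext b
    rw [Finset.mem_singleton]
    constructor
    · intro _
      rfl
    · rintro rfl
      obtain ⟨c, hc⟩ := hZ
      exact hc
  have hcirc : ∀ Z : Finset N.E, N.IsCircuit Z ↔ Z.Nonempty ∧ N.col a = 0 := by
    intro Z
    constructor
    · rintro ⟨h1, h2, _⟩
      refine ⟨h1, ?_⟩
      rw [hZ Z h1, Finset.sum_singleton] at h2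
      exact h2
    · rintro ⟨h1, h2⟩
      refine ⟨h1, ?_, fun Z' h3 h4 => ?_⟩
      · rw [hZ Z h1, Finset.sum_singleton, h2]
      · exfalso
        have e1 := hZ Z h1
        have e2 := hZ Z' h4
        rw [e1, e2] at h3
        exact h3.2 (subset_rfl)
  have hcircU : ∀ (c : ZMod 2) (Z : Finset Unit), (Z.Nonempty ∧ ∑ e ∈ Z, (fun _ => c : Unit → ZMod 2) = 0 ∧
      ∀ Z' : Finset Unit, Z' ⊂ Z → Z'.Nonempty → ∑ e ∈ Z', (fun _ => c : Unit → ZMod 2) ≠ 0) ↔
      Z.Nonempty ∧ c = 0 := by
    intro c Z
    constructor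
    · rintro ⟨h1, h2, _⟩
      refine ⟨h1, ?_⟩
      rw [hU Z h1, Finset.sum_singleton] at h2
      exact congrFun h2 ()
    · rintro ⟨h1, h2⟩
      refine ⟨h1, ?_, fun Z' h3 h4 => ?_⟩
      · rw [hU Z h1, Finset.sum_singleton, h2]
        rfl
      · exfalso
        have e1 := hU Z h1
        have e2 := hU Z' h4
        rw [e1, e2] at h3
        exact h3.2 (subset_rfl)
  by_cases h0 : N.col a = 0
  · left
    refine ⟨f, fun Z => ?_⟩
    rw [hcirc Z]
    have := hcircU 0 (Z.map f.toEmbedding)
    unfold BinMat.IsCircuit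
    refine Iff.trans ?_ this.symm
    rw [Finset.map_nonempty]
    simp [h0]
  · right
    refine ⟨f, fun Z => ?_⟩
    rw [hcirc Z]
    have := hcircU 1 (Z.map f.toEmbedding)
    unfold BinMat.IsCircuit
    refine Iff.trans ?_ this.symm
    rw [Finset.map_nonempty]
    simp [h0]

theorem main : ∀ (k : ℕ) (N : BinMat), Nat.card N.E = k → Nonempty N.E → RecolTrivial N →
    N.Dismantles BinMat.loop ∨ N.Dismantles BinMat.edge := by
  classical
  intro k
  induction k using Nat.strong_induction_on with
  | _ k ih =>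
    intro N hk hne hN
    by_cases hstiff : ∃ r, N.IsDismantlingRetraction r
    · obtain ⟨r, hr⟩ := hstiff
      have h1 := recolTrivial_restrict hN hr
      have h2 : Nat.card (N.restrict (Set.range r)).E < k := by
        rw [← hk]
        show Nat.card (Set.range r) < Nat.card N.E
        rw [Nat.card_coe_set_eq, ← Set.ncard_univ]
        apply Set.ncard_lt_ncard _ (Set.toFinite _)
        refine ⟨Set.subset_univ _, fun h => ?_⟩
        apply hr.2.2.1
        funext x
        obtain ⟨y, hy⟩ := h (Set.mem_univ x)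
        rw [← hy, hr.2.1]
        rfl
      obtain ⟨a⟩ := hne
      rcases ih _ h2 (N.restrict (Set.range r)) rfl ⟨⟨r a, Set.mem_range_self a⟩⟩ h1 with h3 | h3
      · left; exact Dismantles.step r hr h3
      · right; exact Dismantles.step r hr h3
    · obtain ⟨a⟩ := hne
      by_cases h1 : ∀ b, b = a
      · rcases iso_loop_or_edge a h1 with h2 | h2
        · left; exact Dismantles.copy h2
        · right; exact Dismantles.copy h2
      · push Not at h1
        obtain ⟨b, hb⟩ := h1
        exact absurd (hN (prod N N)) (not_preconnected hstiff hb)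

end Pool.Agent.Q164.BR
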